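import Pool.Agent.Lib.S38.Fin
import Pool.Agent.Lib.S38.Pole

set_option autoImplicit false

open Metric Set Filter Topology
open scoped Real ContDiff
open Pool.Agent.Lib.MP_28d281_gt

/-- There is a real-analytic, simple closed, strictly convex planar curve `C = ∂K`, not a circle,
with a continuous branch of smooth embedded cmc disks spanning it that leaves the plane, takes every
positive volume, stays strictly on one side of the plane and is never tangent to it along `C`.
So items (2) and (3) of Rosenberg's conjecture fail for every choice of the threshold `V_C`. -/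
theorem Pool.Agent.Results.MP_28d281_gt.SmoothBranch.result :
    ∃ (K : Set ℂ) (γ : ℝ → ℂ),
      Convex ℝ K ∧ IsCompact K ∧ (interior K).Nonempty ∧
      ContDiff ℝ ⊤ γ ∧ Function.Periodic γ (2 * π) ∧ InjOn γ (Ico 0 (2 * π)) ∧
      range γ = frontier K ∧
      (∀ t, 0 < ((starRingEnd ℂ) (deriv γ t) * deriv (deriv γ) t).im) ∧
      (∀ (c : ℂ) (r : ℝ), frontier K ≠ sphere c r) ∧
      ∃ X : ℝ → ℂ → Fin 3 → ℝ,
        (∀ t, 0 < t → IsCMCDisk (X t) (frontier K) ∧ ContDiffOn ℝ ∞ (X t) (closedBall 0 1) ∧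
          (∀ z ∈ ball (0 : ℂ) 1, 0 < X t z 2 ∧ X t z 2 ≤ 2 * t) ∧
          ∀ z ∈ sphere (0 : ℂ) 1, nrm (X t) z 0 ≠ 0 ∨ nrm (X t) z 1 ≠ 0) ∧
        ContinuousOn (fun p : ℝ × ℂ => X p.1 p.2) (Ioi 0 ×ˢ closedBall 0 1) ∧
        ContinuousOn (fun t => vol (X t)) (Ioi 0) ∧
        Tendsto (fun t => vol (X t)) (𝓝[>] 0) (𝓝 0) ∧
        Tendsto (fun t => vol (X t)) atTop atTop ∧
        ∀ V, 0 < V → ∃ t, 0 < t ∧ vol (X t) = V := by
  have h0 : (0 : ℝ) < 1 / 10 ^ 13 := by positivity
  have h := supp_q h0.le le_rfl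
  refine ⟨body (q0 (1 / 10 ^ 13)), crv (q0 (1 / 10 ^ 13)) (q1 (1 / 10 ^ 13)), convex_body _,
    isCompact_body fun φ => ?_, interior_body fun φ => ?_, crv_q_smooth _, h.crv_per,
    fun θ hθ φ hφ e => ?_, h.frontier_body.symm, crv_q_curv h0.le le_rfl, fun c r => ?_,
    ?_⟩
  · unfold q0
    nlinarith [Real.cos_le_one (64 * φ)]
  · unfold q0
    nlinarith [Real.neg_one_le_cos (64 * φ)]
  · obtain ⟨n, hn⟩ := h.inj e
    have hp := Real.two_pi_pos
    have a : (n : ℝ) < 1 := by
      by_contra hc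
      nlinarith [hθ.2, hφ.1, not_lt.mp hc]
    have b : (-1 : ℝ) < n := by
      by_contra hc
      nlinarith [hθ.1, hφ.2, not_lt.mp hc]
    have c : n = 0 := by
      have a' : n < 1 := by exact_mod_cast a
      have b' : -1 < n := by exact_mod_cast b
      omega
    simpa [c] using hn
  · rw [h.frontier_body]
    exact not_circle h0 le_rfl c r
  · rw [h.frontier_body]
    exact Pool.Agent.Lib.S38.exists_branch_smooth Pool.Agent.Lib.S38.st_POLE h0.le le_rfl
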